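import Mathlib

/-!
# The Freiheitssatz fails for transposed Poisson algebras

Over any field of characteristic zero and for every number `n ≥ 2` of free generators there is
`f` in the free transposed Poisson algebra `T_n`, not in `T_{n-1}`, such that the ideal of `f`
meets `T_{n-1}` in a nonzero element.
-/

set_option autoImplicit false

namespace Pool.Agent.Results.MP_babce1_al.FreiheitssatzFails

universe u v w

/-- A transposed Poisson algebra over the field `F`, on the vector space `L`: a commutative
associative bilinear product `mul` (no unit assumed) and a Lie bracket `br` with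
`2 z·[x,y] = [z·x,y] + [x,z·y]`. -/
class TransposedPoisson (F : Type u) (L : Type v) [Field F] [AddCommGroup L] [Module F L] where
  /-- the product -/
  mul : L →ₗ[F] L →ₗ[F] L
  /-- the bracket -/
  br : L →ₗ[F] L →ₗ[F] L
  mul_comm : ∀ x y : L, mul x y = mul y x
  mul_assoc : ∀ x y z : L, mul (mul x y) z = mul x (mul y z)
  br_self : ∀ x : L, br x x = 0
  jacobi : ∀ x y z : L, br x (br y z) + br y (br z x) + br z (br x y) = 0
  compat : ∀ x y z : L, (2 : F) • mul z (br x y) = br (mul z x) y + br x (mul z y)

/-- Formal expressions in generators `X`, scalars `F` and the operations. -/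
inductive Expr (F : Type u) (X : Type v) : Type (max u v)
  | of (x : X) : Expr F X
  | zero : Expr F X
  | add (a b : Expr F X) : Expr F X
  | neg (a : Expr F X) : Expr F X
  | smul (c : F) (a : Expr F X) : Expr F X
  | mul (a b : Expr F X) : Expr F X
  | br (a b : Expr F X) : Expr F X

/-- Two expressions are related when the axioms of transposed Poisson algebras force them to be
equal. -/
inductive Rel (F : Type u) (X : Type v) [Field F] : Expr F X → Expr F X → Prop
  | refl (a) : Rel F X a a
  | symm {a b} : Rel F X a b → Rel F X b a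
  | trans {a b c} : Rel F X a b → Rel F X b c → Rel F X a c
  | add_congr {a b c d} : Rel F X a b → Rel F X c d → Rel F X (.add a c) (.add b d)
  | neg_congr {a b} : Rel F X a b → Rel F X (.neg a) (.neg b)
  | smul_congr (r : F) {a b} : Rel F X a b → Rel F X (.smul r a) (.smul r b)
  | mul_congr {a b c d} : Rel F X a b → Rel F X c d → Rel F X (.mul a c) (.mul b d)
  | br_congr {a b c d} : Rel F X a b → Rel F X c d → Rel F X (.br a c) (.br b d)
  | add_assoc (a b c) : Rel F X (.add (.add a b) c) (.add a (.add b c))
  | add_comm (a b) : Rel F X (.add a b) (.add b a)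
  | zero_add (a) : Rel F X (.add .zero a) a
  | neg_add (a) : Rel F X (.add (.neg a) a) .zero
  | one_smul (a) : Rel F X (.smul 1 a) a
  | mul_smul (r s : F) (a) : Rel F X (.smul (r * s) a) (.smul r (.smul s a))
  | smul_add (r : F) (a b) : Rel F X (.smul r (.add a b)) (.add (.smul r a) (.smul r b))
  | add_smul (r s : F) (a) : Rel F X (.smul (r + s) a) (.add (.smul r a) (.smul s a))
  | mul_add_left (a b c) : Rel F X (.mul (.add a b) c) (.add (.mul a c) (.mul b c))
  | mul_smul_left (r : F) (a b) : Rel F X (.mul (.smul r a) b) (.smul r (.mul a b))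
  | mul_comm (a b) : Rel F X (.mul a b) (.mul b a)
  | mul_assoc (a b c) : Rel F X (.mul (.mul a b) c) (.mul a (.mul b c))
  | br_add_left (a b c) : Rel F X (.br (.add a b) c) (.add (.br a c) (.br b c))
  | br_smul_left (r : F) (a b) : Rel F X (.br (.smul r a) b) (.smul r (.br a b))
  | br_add_right (a b c) : Rel F X (.br a (.add b c)) (.add (.br a b) (.br a c))
  | br_smul_right (r : F) (a b) : Rel F X (.br a (.smul r b)) (.smul r (.br a b))
  | br_self (a) : Rel F X (.br a a) .zero
  | jacobi (a b c) : Rel F X
      (.add (.add (.br a (.br b c)) (.br b (.br c a))) (.br c (.br a b))) .zero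
  | compat (a b c) : Rel F X (.smul 2 (.mul c (.br a b)))
      (.add (.br (.mul c a) b) (.br a (.mul c b)))

/-- The free transposed Poisson algebra over `F` on the set `X` of free generators. -/
def FreeTPA (F : Type u) (X : Type v) [Field F] : Type (max u v) :=
  Quot (Rel F X)

namespace FreeTPA

variable {F : Type u} {X : Type v} [Field F]

/-- the class of an expression -/
def mk (e : Expr F X) : FreeTPA F X := Quot.mk _ e

/-- the free generators -/
def of (F : Type u) {X : Type v} [Field F] (x : X) : FreeTPA F X := Quot.mk _ (Expr.of x)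

instance : Zero (FreeTPA F X) := ⟨Quot.mk _ Expr.zero⟩

instance : Add (FreeTPA F X) :=
  ⟨Quot.map₂ Expr.add (fun a _ _ h => Rel.add_congr (Rel.refl a) h)
    (fun _ _ b h => Rel.add_congr h (Rel.refl b))⟩

instance : Neg (FreeTPA F X) := ⟨Quot.map Expr.neg (fun _ _ h => Rel.neg_congr h)⟩

instance : SMul F (FreeTPA F X) :=
  ⟨fun r => Quot.map (Expr.smul r) (fun _ _ h => Rel.smul_congr r h)⟩

/-- the product, as a function -/
def mulFun : FreeTPA F X → FreeTPA F X → FreeTPA F X :=
  Quot.map₂ Expr.mul (fun a _ _ h => Rel.mul_congr (Rel.refl a) h)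
    (fun _ _ b h => Rel.mul_congr h (Rel.refl b))

/-- the bracket, as a function -/
def brFun : FreeTPA F X → FreeTPA F X → FreeTPA F X :=
  Quot.map₂ Expr.br (fun a _ _ h => Rel.br_congr (Rel.refl a) h)
    (fun _ _ b h => Rel.br_congr h (Rel.refl b))

instance : AddCommGroup (FreeTPA F X) where
  add_assoc := by
    rintro ⟨a⟩ ⟨b⟩ ⟨c⟩; exact Quot.sound (Rel.add_assoc a b c)
  zero_add := by
    rintro ⟨a⟩; exact Quot.sound (Rel.zero_add a)
  add_zero := by
    rintro ⟨a⟩; exact Quot.sound (Rel.trans (Rel.add_comm a _) (Rel.zero_add a))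
  add_comm := by
    rintro ⟨a⟩ ⟨b⟩; exact Quot.sound (Rel.add_comm a b)
  neg_add_cancel := by
    rintro ⟨a⟩; exact Quot.sound (Rel.neg_add a)
  nsmul := nsmulRec
  zsmul := zsmulRec

theorem smul_add' (r : F) (a b : FreeTPA F X) : r • (a + b) = r • a + r • b := by
  rcases a with ⟨a⟩; rcases b with ⟨b⟩; exact Quot.sound (Rel.smul_add r a b)

theorem add_smul' (r s : F) (a : FreeTPA F X) : (r + s) • a = r • a + s • a := by
  rcases a with ⟨a⟩; exact Quot.sound (Rel.add_smul r s a)

instance : Module F (FreeTPA F X) where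
  one_smul := by
    rintro ⟨a⟩; exact Quot.sound (Rel.one_smul a)
  mul_smul := by
    rintro r s ⟨a⟩; exact Quot.sound (Rel.mul_smul r s a)
  smul_zero := by
    intro r
    have h := smul_add' r (0 : FreeTPA F X) 0
    rw [add_zero] at h
    exact (left_eq_add.mp h)
  smul_add := smul_add'
  add_smul := add_smul'
  zero_smul := by
    intro a
    have h := add_smul' (0 : F) 0 a
    rw [add_zero] at h
    exact (left_eq_add.mp h)

instance : TransposedPoisson F (FreeTPA F X) where
  mul := LinearMap.mk₂ F mulFun
    (by rintro ⟨a⟩ ⟨b⟩ ⟨c⟩; exact Quot.sound (Rel.mul_add_left a b c))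
    (by rintro r ⟨a⟩ ⟨b⟩; exact Quot.sound (Rel.mul_smul_left r a b))
    (by
      rintro ⟨a⟩ ⟨b⟩ ⟨c⟩
      exact Quot.sound (Rel.trans (Rel.mul_comm _ _) (Rel.trans (Rel.mul_add_left b c a)
        (Rel.add_congr (Rel.mul_comm _ _) (Rel.mul_comm _ _)))))
    (by
      rintro r ⟨a⟩ ⟨b⟩
      exact Quot.sound (Rel.trans (Rel.mul_comm _ _) (Rel.trans (Rel.mul_smul_left r b a)
        (Rel.smul_congr r (Rel.mul_comm _ _)))))
  br := LinearMap.mk₂ F brFun
    (by rintro ⟨a⟩ ⟨b⟩ ⟨c⟩; exact Quot.sound (Rel.br_add_left a b c))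
    (by rintro r ⟨a⟩ ⟨b⟩; exact Quot.sound (Rel.br_smul_left r a b))
    (by rintro ⟨a⟩ ⟨b⟩ ⟨c⟩; exact Quot.sound (Rel.br_add_right a b c))
    (by rintro r ⟨a⟩ ⟨b⟩; exact Quot.sound (Rel.br_smul_right r a b))
  mul_comm := by rintro ⟨a⟩ ⟨b⟩; exact Quot.sound (Rel.mul_comm a b)
  mul_assoc := by rintro ⟨a⟩ ⟨b⟩ ⟨c⟩; exact Quot.sound (Rel.mul_assoc a b c)
  br_self := by rintro ⟨a⟩; exact Quot.sound (Rel.br_self a)
  jacobi := by rintro ⟨a⟩ ⟨b⟩ ⟨c⟩; exact Quot.sound (Rel.jacobi a b c)
  compat := by rintro ⟨a⟩ ⟨b⟩ ⟨c⟩; exact Quot.sound (Rel.compat a b c)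

end FreeTPA

open TransposedPoisson

section Lift

variable {F : Type u} {X : Type v} [Field F] {L : Type w} [AddCommGroup L] [Module F L]
  [TransposedPoisson F L]

/-- evaluation of an expression in a transposed Poisson algebra -/
def evalExpr (g : X → L) : Expr F X → L
  | .of x => g x
  | .zero => 0
  | .add a b => evalExpr g a + evalExpr g b
  | .neg a => - evalExpr g a
  | .smul c a => c • evalExpr g a
  | .mul a b => mul (F := F) (evalExpr g a) (evalExpr g b)
  | .br a b => br (F := F) (evalExpr g a) (evalExpr g b)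

theorem evalExpr_rel (g : X → L) {a b : Expr F X} (h : Rel F X a b) :
    evalExpr g a = evalExpr g b := by
  induction h with
  | refl a => rfl
  | symm _ ih => exact ih.symm
  | trans _ _ ih1 ih2 => exact ih1.trans ih2
  | add_congr _ _ ih1 ih2 => simp only [evalExpr, ih1, ih2]
  | neg_congr _ ih => simp only [evalExpr, ih]
  | smul_congr r _ ih => simp only [evalExpr, ih]
  | mul_congr _ _ ih1 ih2 => simp only [evalExpr, ih1, ih2]
  | br_congr _ _ ih1 ih2 => simp only [evalExpr, ih1, ih2]
  | add_assoc a b c => simp only [evalExpr]; abel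
  | add_comm a b => simp only [evalExpr]; abel
  | zero_add a => simp only [evalExpr]; abel
  | neg_add a => simp only [evalExpr]; abel
  | one_smul a => simp only [evalExpr, _root_.one_smul]
  | mul_smul r s a => exact SemigroupAction.mul_smul _ _ _
  | smul_add r a b => simp only [evalExpr, _root_.smul_add]
  | add_smul r s a => simp only [evalExpr, _root_.add_smul]
  | mul_add_left a b c => simp only [evalExpr, map_add, LinearMap.add_apply]
  | mul_smul_left r a b => simp only [evalExpr, map_smul, LinearMap.smul_apply]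
  | mul_comm a b => exact TransposedPoisson.mul_comm _ _
  | mul_assoc a b c => exact TransposedPoisson.mul_assoc _ _ _
  | br_add_left a b c => simp only [evalExpr, map_add, LinearMap.add_apply]
  | br_smul_left r a b => simp only [evalExpr, map_smul, LinearMap.smul_apply]
  | br_add_right a b c => simp only [evalExpr, map_add]
  | br_smul_right r a b => simp only [evalExpr, map_smul]
  | br_self a => exact TransposedPoisson.br_self _
  | jacobi a b c => exact TransposedPoisson.jacobi _ _ _
  | compat a b c => exact TransposedPoisson.compat _ _ _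

/-- The homomorphism from the free transposed Poisson algebra extending `g`. -/
def lift (g : X → L) : FreeTPA F X →ₗ[F] L where
  toFun := Quot.lift (evalExpr g) (fun _ _ h => evalExpr_rel g h)
  map_add' := by rintro ⟨a⟩ ⟨b⟩; rfl
  map_smul' := by rintro r ⟨a⟩; rfl

theorem lift_of (g : X → L) (x : X) : lift g (FreeTPA.of F x) = g x := rfl

theorem lift_mul (g : X → L) (a b : FreeTPA F X) :
    lift g (mul (F := F) a b) = mul (F := F) (lift g a) (lift g b) := by
  rcases a with ⟨a⟩; rcases b with ⟨b⟩; rfl

theorem lift_br (g : X → L) (a b : FreeTPA F X) :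
    lift g (br (F := F) a b) = br (F := F) (lift g a) (lift g b) := by
  rcases a with ⟨a⟩; rcases b with ⟨b⟩; rfl

/-- The universal property: `FreeTPA F X` is the free transposed Poisson algebra on `X`. -/
theorem existsUnique_lift (g : X → L) : ∃! φ : FreeTPA F X →ₗ[F] L,
    (∀ x, φ (FreeTPA.of F x) = g x) ∧
    (∀ a b, φ (mul (F := F) a b) = mul (F := F) (φ a) (φ b)) ∧
    (∀ a b, φ (br (F := F) a b) = br (F := F) (φ a) (φ b)) := by
  refine ⟨lift g, ⟨lift_of g, lift_mul g, lift_br g⟩, ?_⟩
  rintro ψ ⟨h1, h2, h3⟩
  have key : ∀ e : Expr F X, ψ (FreeTPA.mk e) = evalExpr g e := by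
    intro e
    induction e with
    | of x => exact h1 x
    | zero => exact map_zero ψ
    | add a b iha ihb =>
      have h : ψ (FreeTPA.mk a + FreeTPA.mk b) = evalExpr g a + evalExpr g b := by
        rw [map_add, iha, ihb]
      exact h
    | neg a iha =>
      have h : ψ (- FreeTPA.mk a) = - evalExpr g a := by rw [map_neg, iha]
      exact h
    | smul c a iha =>
      have h : ψ (c • FreeTPA.mk a) = c • evalExpr g a := by rw [map_smul, iha]
      exact h
    | mul a b iha ihb =>
      have h := h2 (FreeTPA.mk a) (FreeTPA.mk b)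
      rw [iha, ihb] at h
      exact h
    | br a b iha ihb =>
      have h := h3 (FreeTPA.mk a) (FreeTPA.mk b)
      rw [iha, ihb] at h
      exact h
  ext a
  rcases a with ⟨a⟩
  exact key a

end Lift

section Identities

variable {F : Type u} [Field F] [CharZero F] {L : Type w} [AddCommGroup L] [Module F L]
  [TransposedPoisson F L]

omit [CharZero F] in
variable (F) in
theorem br_skew (x y : L) : br (F := F) x y = - br (F := F) y x := by
  have h := TransposedPoisson.br_self (F := F) (x + y)
  simp only [map_add, LinearMap.add_apply, TransposedPoisson.br_self, zero_add, add_zero] at h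
  rw [add_comm] at h
  exact eq_neg_of_add_eq_zero_left h

variable (F) in
theorem mul_br_cyc (x y z : L) :
    mul (F := F) x (br (F := F) y z) + mul (F := F) y (br (F := F) z x)
      + mul (F := F) z (br (F := F) x y) = 0 := by
  have h1 := TransposedPoisson.compat (F := F) y z x
  have h2 := TransposedPoisson.compat (F := F) z x y
  have h3 := TransposedPoisson.compat (F := F) x y z
  have e1 := TransposedPoisson.mul_comm (F := F) x y
  have e2 := TransposedPoisson.mul_comm (F := F) y z
  have e3 := TransposedPoisson.mul_comm (F := F) z x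
  have s1 := br_skew F (mul (F := F) x y) z
  have s2 := br_skew F (mul (F := F) y z) x
  have s3 := br_skew F (mul (F := F) z x) y
  have h : (2 : F) • (mul (F := F) x (br (F := F) y z) + mul (F := F) y (br (F := F) z x)
      + mul (F := F) z (br (F := F) x y)) = 0 := by
    rw [smul_add, smul_add, h1, h2, h3, ← e1, ← e2, ← e3, s1, s2, s3]
    abel
  exact (smul_eq_zero.mp h).resolve_left two_ne_zero

/-- the basic relation `z·[x,y] = x·[z,y] - y·[z,x]` -/
theorem mul_br (z x y : L) :
    mul (F := F) z (br (F := F) x y)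
      = mul (F := F) x (br (F := F) z y) - mul (F := F) y (br (F := F) z x) := by
  have h := mul_br_cyc F x y z
  have s := br_skew F y z
  rw [s, map_neg] at h
  rw [← sub_eq_zero, ← h]
  abel

omit [CharZero F] in
/-- `[z,·]` is a derivation of the bracket -/
theorem br_br (z x y : L) :
    br (F := F) z (br (F := F) x y)
      = br (F := F) (br (F := F) z x) y + br (F := F) x (br (F := F) z y) := by
  have h := TransposedPoisson.jacobi (F := F) z x y
  have s1 := br_skew F (br (F := F) z x) y
  have s2 := br_skew F y z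
  rw [s2, map_neg] at h
  rw [s1, ← sub_eq_zero, ← h]
  abel

omit [CharZero F] in
theorem mul_left_comm' (x y z : L) :
    mul (F := F) x (mul (F := F) y z) = mul (F := F) y (mul (F := F) x z) := by
  rw [← TransposedPoisson.mul_assoc, TransposedPoisson.mul_comm x y,
    TransposedPoisson.mul_assoc]

/-- `z²·[a,[b,c]]` expressed through `[z,·]` -/
theorem mul_mul_br_br (z a b c : L) :
    mul (F := F) z (mul (F := F) z (br (F := F) a (br (F := F) b c)))
      = mul (F := F) a (mul (F := F) b (br (F := F) z (br (F := F) z c)))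
        - mul (F := F) a (mul (F := F) c (br (F := F) z (br (F := F) z b)))
        - mul (F := F) (br (F := F) z a) (mul (F := F) b (br (F := F) z c))
        + mul (F := F) (br (F := F) z a) (mul (F := F) c (br (F := F) z b)) := by
  rw [mul_br z a (br (F := F) b c), map_sub, mul_left_comm' z a,
    TransposedPoisson.mul_comm (br (F := F) b c) (br (F := F) z a),
    mul_left_comm' z (br (F := F) z a), mul_br z b c, br_br z b c, map_add,
    mul_br z (br (F := F) z b) c, mul_br z b (br (F := F) z c)]
  simp only [map_sub, map_add]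
  rw [TransposedPoisson.mul_comm (br (F := F) z b) (br (F := F) z c)]
  abel

/-- iterated bracket `[z,[z,...,[z,y]]]` -/
def ad (F : Type u) [Field F] {L : Type w} [AddCommGroup L] [Module F L]
    [TransposedPoisson F L] (z y : L) : ℕ → L
  | 0 => y
  | (k + 1) => br (F := F) z (ad F z y k)

/-- A Lie polynomial in `z, y` which is an identity for `z = d/dt`, `y = f(t) d/dt`. -/
def witt (F : Type u) [Field F] {L : Type w} [AddCommGroup L] [Module F L]
    [TransposedPoisson F L] (z y : L) : L :=
  br (F := F) (ad F z y 4) (br (F := F) (ad F z y 0) (ad F z y 1))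
    - br (F := F) (ad F z y 1) (br (F := F) (ad F z y 1) (ad F z y 3))
    + br (F := F) (ad F z y 2) (br (F := F) (ad F z y 0) (ad F z y 3))
    - (2 : F) • br (F := F) (ad F z y 3) (br (F := F) (ad F z y 0) (ad F z y 2))
    + (2 : F) • br (F := F) (ad F z y 2) (br (F := F) (ad F z y 1) (ad F z y 2))

theorem mul_mul_witt (z y : L) :
    mul (F := F) z (mul (F := F) z (witt F z y)) = 0 := by
  have key : ∀ i j k : ℕ, mul (F := F) z (mul (F := F) z (br (F := F) (ad F z y i)
      (br (F := F) (ad F z y j) (ad F z y k))))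
      = mul (F := F) (ad F z y i) (mul (F := F) (ad F z y j) (ad F z y (k + 2)))
        - mul (F := F) (ad F z y i) (mul (F := F) (ad F z y k) (ad F z y (j + 2)))
        - mul (F := F) (ad F z y (i + 1)) (mul (F := F) (ad F z y j) (ad F z y (k + 1)))
        + mul (F := F) (ad F z y (i + 1)) (mul (F := F) (ad F z y k) (ad F z y (j + 1))) :=
    fun i j k => mul_mul_br_br z _ _ _
  have c : ∀ a b : L, mul (F := F) a b = mul (F := F) b a := TransposedPoisson.mul_comm
  have lc : ∀ a b c : L, mul (F := F) a (mul (F := F) b c)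
      = mul (F := F) b (mul (F := F) a c) := mul_left_comm'
  simp only [witt, map_add, map_sub, map_smul, key]
  norm_num only
  generalize ad F z y 0 = y0
  generalize ad F z y 1 = y1
  generalize ad F z y 2 = y2
  generalize ad F z y 3 = y3
  generalize ad F z y 4 = y4
  generalize ad F z y 5 = y5
  have e1 : mul (F := F) y4 (mul (F := F) y0 y3) = mul (F := F) y0 (mul (F := F) y3 y4) := by
    rw [lc, c y4 y3]
  have e2 : mul (F := F) y4 (mul (F := F) y1 y2) = mul (F := F) y1 (mul (F := F) y2 y4) := by
    rw [lc, c y4 y2]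
  have e3 : mul (F := F) y5 (mul (F := F) y0 y2) = mul (F := F) y0 (mul (F := F) y2 y5) := by
    rw [lc, c y5 y2]
  have e4 : mul (F := F) y5 (mul (F := F) y1 y1) = mul (F := F) y1 (mul (F := F) y1 y5) := by
    rw [lc, c y5 y1]
  have e5 : mul (F := F) y2 (mul (F := F) y1 y4) = mul (F := F) y1 (mul (F := F) y2 y4) := by
    rw [lc]
  have e6 : mul (F := F) y2 (mul (F := F) y3 y2) = mul (F := F) y2 (mul (F := F) y2 y3) := by
    rw [c y3 y2]
  have e7 : mul (F := F) y2 (mul (F := F) y0 y5) = mul (F := F) y0 (mul (F := F) y2 y5) := by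
    rw [lc]
  have e8 : mul (F := F) y3 (mul (F := F) y0 y4) = mul (F := F) y0 (mul (F := F) y3 y4) := by
    rw [lc]
  have e9 : mul (F := F) y3 (mul (F := F) y3 y1) = mul (F := F) y1 (mul (F := F) y3 y3) := by
    rw [c y3 y1, lc]
  have e10 : mul (F := F) y3 (mul (F := F) y2 y2) = mul (F := F) y2 (mul (F := F) y2 y3) := by
    rw [lc, c y3 y2]
  have e11 : mul (F := F) y4 (mul (F := F) y2 y1) = mul (F := F) y1 (mul (F := F) y2 y4) := by
    rw [c y2 y1, lc, c y4 y2]
  have e12 : mul (F := F) y3 (mul (F := F) y1 y3) = mul (F := F) y1 (mul (F := F) y3 y3) := by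
    rw [lc]
  rw [e1, e2, e3, e4, e5, e6, e7, e8, e9, e10, e11, e12]
  module

end Identities

section LiftWitt

variable {F : Type u} {X : Type v} [Field F] {L : Type w} [AddCommGroup L] [Module F L]
  [TransposedPoisson F L]

theorem lift_ad (g : X → L) (z y : FreeTPA F X) (k : ℕ) :
    lift g (ad F z y k) = ad F (lift g z) (lift g y) k := by
  induction k with
  | zero => rfl
  | succ k ih => rw [ad, lift_br, ih]; rfl

theorem lift_witt (g : X → L) (z y : FreeTPA F X) :
    lift g (witt F z y) = witt F (lift g z) (lift g y) := by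
  simp only [witt, map_add, map_sub, map_smul, lift_br, lift_ad]

end LiftWitt

section Closures

variable (F : Type u) [Field F] {L : Type w} [AddCommGroup L] [Module F L]
  [TransposedPoisson F L]

/-- The transposed Poisson subalgebra generated by `S`: the smallest subspace containing `S` and
closed under both products. -/
def subalgebraGen (S : Set L) : Submodule F L :=
  sInf {A : Submodule F L | S ⊆ A ∧
    ∀ u ∈ A, ∀ v ∈ A, mul (F := F) u v ∈ A ∧ br (F := F) u v ∈ A}

/-- The ideal generated by `f`: the smallest subspace containing `f` and closed under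
`u ↦ a·u` and `u ↦ [a,u]` for all `a`. -/
def idealGen (f : L) : Submodule F L :=
  sInf {I : Submodule F L | f ∈ I ∧
    ∀ a : L, ∀ u ∈ I, mul (F := F) a u ∈ I ∧ br (F := F) a u ∈ I}

variable {F}

theorem subset_subalgebraGen {S : Set L} {x : L} (hx : x ∈ S) : x ∈ subalgebraGen F S := by
  rw [subalgebraGen, Submodule.mem_sInf]
  rintro A ⟨hA, -⟩
  exact hA hx

theorem mul_mem_subalgebraGen {S : Set L} {u v : L} (hu : u ∈ subalgebraGen F S)
    (hv : v ∈ subalgebraGen F S) : mul (F := F) u v ∈ subalgebraGen F S := by
  rw [subalgebraGen, Submodule.mem_sInf] at *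
  intro A hA
  exact (hA.2 u (hu A hA) v (hv A hA)).1

theorem self_mem_idealGen (f : L) : f ∈ idealGen F f := by
  rw [idealGen, Submodule.mem_sInf]
  rintro I ⟨hI, -⟩
  exact hI

theorem mul_mem_idealGen {f : L} (a : L) {u : L} (hu : u ∈ idealGen F f) :
    mul (F := F) a u ∈ idealGen F f := by
  rw [idealGen, Submodule.mem_sInf] at *
  intro I hI
  exact (hI.2 a u (hu I hI)).1

end Closures

section Models

variable (F : Type u) [Field F]

/-- The ground field with its product and the zero bracket. -/
abbrev scalarTPA : TransposedPoisson F F where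
  mul := LinearMap.mul F F
  br := 0
  mul_comm := by intro x y; simp [_root_.mul_comm]
  mul_assoc := by intro x y z; simp [_root_.mul_assoc]
  br_self := by intro x; simp
  jacobi := by intro x y z; simp
  compat := by intro x y z; simp

/-- The Lie algebra of `4 × 4` matrices with the zero product. -/
abbrev matTPA : TransposedPoisson F (Matrix (Fin 4) (Fin 4) F) where
  mul := 0
  br := LinearMap.mk₂ F (fun A B => A * B - B * A)
    (by intro a b c; rw [add_mul, mul_add]; abel)
    (by intro r a b; rw [smul_mul_assoc, mul_smul_comm, smul_sub])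
    (by intro a b c; rw [add_mul, mul_add]; abel)
    (by intro r a b; rw [smul_mul_assoc, mul_smul_comm, smul_sub])
  mul_comm := by intro x y; simp
  mul_assoc := by intro x y z; simp
  br_self := by intro x; simp
  jacobi := by intro x y z; simp only [LinearMap.mk₂_apply]; noncomm_ring
  compat := by intro x y z; simp

end Models

/-- **The Freiheitssatz fails for transposed Poisson algebras.** Over every field of
characteristic zero and for every `n ≥ 2` there is `f ∈ T_n`, `f ∉ T_{n-1}`, whose ideal `I(f)`
contains a nonzero element of `T_{n-1}`, where `T_n = FreeTPA F (Fin n)` and `T_{n-1}` is the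
subalgebra generated by the first `n - 1` free generators. Explicitly
`f = x₁ + w(x₁,xₙ)` and `u = x₁·x₁·x₁`, where `w` is a nonzero Lie polynomial of degree 8 with
`x₁·x₁·w = 0`. -/
theorem result (F : Type u) [Field F] [CharZero F] (n : ℕ) (hn : 2 ≤ n) :
    ∃ f : FreeTPA F (Fin n),
      f ∉ subalgebraGen F (FreeTPA.of F '' {i : Fin n | (i : ℕ) < n - 1}) ∧
      ∃ u : FreeTPA F (Fin n),
        u ∈ subalgebraGen F (FreeTPA.of F '' {i : Fin n | (i : ℕ) < n - 1}) ∧
        u ∈ idealGen F f ∧ u ≠ 0 := by
  have h0 : 0 < n := by omega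
  have hl : n - 1 < n := by omega
  let x : FreeTPA F (Fin n) := FreeTPA.of F ⟨0, h0⟩
  let y : FreeTPA F (Fin n) := FreeTPA.of F ⟨n - 1, hl⟩
  have hx : x ∈ subalgebraGen F (FreeTPA.of F '' {i : Fin n | (i : ℕ) < n - 1}) := by
    refine subset_subalgebraGen ⟨⟨0, h0⟩, ?_, rfl⟩
    show 0 < n - 1
    omega
  refine ⟨x + witt F x y, ?_, mul (F := F) x (mul (F := F) x x), ?_, ?_, ?_⟩
  · intro hmem
    let inst := matTPA F
    let X : Matrix (Fin 4) (Fin 4) F := !![0, 0, 0, 0; 0, 0, 0, 0; 0, 0, 1, 0; 0, 0, 0, 0]
    let Y : Matrix (Fin 4) (Fin 4) F := !![0, 1, 0, 0; 0, 0, 1, 0; 0, 0, 0, 1; 0, 0, 0, 0]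
    let g : Fin n → Matrix (Fin 4) (Fin 4) F := fun i =>
      if (i : ℕ) = 0 then X else if (i : ℕ) = n - 1 then Y else 0
    have hbr : ∀ A B : Matrix (Fin 4) (Fin 4) F, br (F := F) A B = A * B - B * A :=
      fun A B => rfl
    have hmul : ∀ A B : Matrix (Fin 4) (Fin 4) F, mul (F := F) A B = 0 := fun A B => rfl
    have hgx : lift (F := F) g x = X := by
      show g ⟨0, h0⟩ = X
      simp [g]
    have hgy : lift (F := F) g y = Y := by
      show g ⟨n - 1, hl⟩ = Y
      have : n - 1 ≠ 0 := by omega
      simp [g, this]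
    have hle : subalgebraGen F (FreeTPA.of F '' {i : Fin n | (i : ℕ) < n - 1})
        ≤ (Submodule.span F {X}).comap (lift (F := F) g) := by
      refine sInf_le ⟨?_, ?_⟩
      · rintro _ ⟨i, hi, rfl⟩
        have hi' : (i : ℕ) < n - 1 := hi
        show g i ∈ Submodule.span F {X}
        by_cases h : (i : ℕ) = 0
        · simp only [g, h, if_true]
          exact Submodule.mem_span_singleton_self X
        · have h2 : (i : ℕ) ≠ n - 1 := by omega
          simp only [g, h, h2, if_false]
          exact Submodule.zero_mem _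
      · intro u hu v hv
        rw [Submodule.mem_comap, Submodule.mem_span_singleton] at hu hv
        obtain ⟨c, hc⟩ := hu
        obtain ⟨d, hd⟩ := hv
        constructor
        · rw [Submodule.mem_comap, lift_mul, hmul]
          exact Submodule.zero_mem _
        · have hz : br (F := F) (c • X) (d • X) = 0 := by
            rw [hbr, smul_mul_smul_comm, smul_mul_smul_comm, _root_.mul_comm c d, sub_self]
          rw [Submodule.mem_comap, lift_br, ← hc, ← hd, hz]
          exact Submodule.zero_mem _
    have h1 := hle hmem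
    rw [Submodule.mem_comap, map_add, lift_witt, hgx, hgy, Submodule.mem_span_singleton] at h1
    obtain ⟨c, hc⟩ := h1
    have h3 := congrFun (congrFun hc 0) 3
    simp only [witt, ad, hbr] at h3
    simp [X, Y, Matrix.of_apply] at h3
    norm_num at h3
  · exact mul_mem_subalgebraGen hx (mul_mem_subalgebraGen hx hx)
  · have h := mul_mem_idealGen x (mul_mem_idealGen x (self_mem_idealGen (F := F) (x + witt F x y)))
    rw [map_add, map_add, mul_mul_witt, add_zero] at h
    exact h
  · intro hzero
    let inst := scalarTPA F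
    have h := congrArg (lift (F := F) (fun _ : Fin n => (1 : F))) hzero
    rw [lift_mul, lift_mul, map_zero] at h
    have h' : (1 : F) * (1 * 1) = 0 := h
    simp at h'

end Pool.Agent.Results.MP_babce1_al.FreiheitssatzFails
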